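import Pool.Agent.Helper83.RB.St

/-!
# Project RB (MP_97dcad_al): module WGT
-/

set_option autoImplicit false

namespace Pool.Agent.Helper91.RB

open Pool.Agent.Helper83.RB
open scoped commutatorElement

section W

variable {G : Type} [Group G] {A : Type} [Ring A] (ρ : G →* A)

/-- The product of the `ρ g - 1`. -/
def Val (l : List (G × ℕ)) : A := (l.map fun x => ρ x.1 - 1).prod

/-- The total weight. -/
def wt (l : List (G × ℕ)) : ℕ := (l.map Prod.snd).sum

/-- Admissible weights. -/
def Ok (l : List (G × ℕ)) : Prop :=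
  ∀ x ∈ l, 1 ≤ x.2 ∧ x.1 ∈ (⊤ : Subgroup G).lowerCentralSeries (x.2 - 1)

/-- The filtration by the weight. -/
def E (k : ℕ) : AddSubgroup A :=
  AddSubgroup.closure {a | ∃ l : List (G × ℕ), Ok l ∧ k ≤ wt l ∧ a = Val ρ l}

/-- Products of at most `n` factors. -/
def Q (n k : ℕ) : AddSubgroup A :=
  AddSubgroup.closure {a | ∃ l : List (G × ℕ), Ok l ∧ l.length ≤ n ∧ k ≤ wt l ∧ a = Val ρ l}

theorem val_append (l l' : List (G × ℕ)) : Val ρ (l ++ l') = Val ρ l * Val ρ l' := by
  simp [Val]

theorem val_cons (x : G × ℕ) (l : List (G × ℕ)) : Val ρ (x :: l) = (ρ x.1 - 1) * Val ρ l := by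
  simp [Val]

theorem wt_append (l l' : List (G × ℕ)) : wt (l ++ l') = wt l + wt l' := by
  simp [wt]

theorem wt_cons (x : G × ℕ) (l : List (G × ℕ)) : wt (x :: l) = x.2 + wt l := by
  simp [wt]

theorem ok_append (l l' : List (G × ℕ)) : Ok (l ++ l') ↔ Ok l ∧ Ok l' := by
  unfold Ok
  constructor
  · intro h
    exact ⟨fun x hx => h x (List.mem_append_left _ hx), fun x hx => h x (List.mem_append_right _ hx)⟩
  · rintro ⟨h1, h2⟩ x hx
    rcases List.mem_append.1 hx with hx | hx
    · exact h1 x hx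
    · exact h2 x hx

theorem ok_cons (x : G × ℕ) (l : List (G × ℕ)) :
    Ok (x :: l) ↔ (1 ≤ x.2 ∧ x.1 ∈ (⊤ : Subgroup G).lowerCentralSeries (x.2 - 1)) ∧ Ok l := by
  unfold Ok
  simp [List.forall_mem_cons]

theorem mem_E (l : List (G × ℕ)) (k : ℕ) (h : Ok l) (hk : k ≤ wt l) : Val ρ l ∈ E ρ k :=
  AddSubgroup.subset_closure ⟨l, h, hk, rfl⟩

theorem mem_Q (l : List (G × ℕ)) (n k : ℕ) (h : Ok l) (hn : l.length ≤ n) (hk : k ≤ wt l) :
    Val ρ l ∈ Q ρ n k :=
  AddSubgroup.subset_closure ⟨l, h, hn, hk, rfl⟩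

/-- Commutation of two factors. -/
theorem comm_eq (g h : G) :
    (ρ g - 1) * (ρ h - 1) - (ρ h - 1) * (ρ g - 1) =
      (ρ ⁅g, h⁆ - 1) + (ρ ⁅g, h⁆ - 1) * (ρ (h * g) - 1) := by
  have e : ρ ⁅g, h⁆ * ρ (h * g) = ρ g * ρ h := by
    rw [← map_mul, ← map_mul]
    congr 1
    simp [commutatorElement_def, mul_assoc]
  have e2 : ρ (h * g) = ρ h * ρ g := map_mul ρ h g
  calc (ρ g - 1) * (ρ h - 1) - (ρ h - 1) * (ρ g - 1) = ρ g * ρ h - ρ h * ρ g := by noncomm_ring
    _ = ρ ⁅g, h⁆ * ρ (h * g) - ρ (h * g) := by rw [e, e2]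
    _ = (ρ ⁅g, h⁆ - 1) + (ρ ⁅g, h⁆ - 1) * (ρ (h * g) - 1) := by noncomm_ring

variable (hLCC : ∀ i j : ℕ,
    ⁅(⊤ : Subgroup G).lowerCentralSeries i, (⊤ : Subgroup G).lowerCentralSeries j⁆ ≤
      (⊤ : Subgroup G).lowerCentralSeries (i + j + 1))

include hLCC in
/-- Interchanging two adjacent factors. -/
theorem swap_mem (l₁ l₂ : List (G × ℕ)) (x y : G × ℕ) (m k : ℕ)
    (hok : Ok (l₁ ++ x :: y :: l₂)) (hlen : (l₁ ++ x :: y :: l₂).length ≤ m + 1)
    (hk : k ≤ wt (l₁ ++ x :: y :: l₂)) :
    Val ρ (l₁ ++ x :: y :: l₂) - Val ρ (l₁ ++ y :: x :: l₂) ∈ Q ρ m k ⊔ E ρ (k + 1) := by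
  obtain ⟨hok1, hok2⟩ := (ok_append _ _).1 hok
  obtain ⟨⟨hx1, hx2⟩, hok3⟩ := (ok_cons _ _).1 hok2
  obtain ⟨⟨hy1, hy2⟩, hok4⟩ := (ok_cons _ _).1 hok3
  have hc : ⁅x.1, y.1⁆ ∈ (⊤ : Subgroup G).lowerCentralSeries (x.2 + y.2 - 1) := by
    have h1 := hLCC (x.2 - 1) (y.2 - 1) (Subgroup.commutator_mem_commutator hx2 hy2)
    have h2 : x.2 - 1 + (y.2 - 1) + 1 = x.2 + y.2 - 1 := by omega
    rwa [h2] at h1
  have e : Val ρ (l₁ ++ x :: y :: l₂) - Val ρ (l₁ ++ y :: x :: l₂) =
      Val ρ (l₁ ++ (⁅x.1, y.1⁆, x.2 + y.2) :: l₂) +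
      Val ρ (l₁ ++ (⁅x.1, y.1⁆, x.2 + y.2) :: (y.1 * x.1, 1) :: l₂) := by
    simp only [val_append, val_cons]
    calc Val ρ l₁ * ((ρ x.1 - 1) * ((ρ y.1 - 1) * Val ρ l₂)) -
          Val ρ l₁ * ((ρ y.1 - 1) * ((ρ x.1 - 1) * Val ρ l₂))
        = Val ρ l₁ * (((ρ x.1 - 1) * (ρ y.1 - 1) - (ρ y.1 - 1) * (ρ x.1 - 1)) * Val ρ l₂) := by
          noncomm_ring
      _ = _ := by
          rw [comm_eq]
          noncomm_ring
  rw [e]
  rw [wt_append, wt_cons, wt_cons] at hk
  rw [List.length_append, List.length_cons, List.length_cons] at hlen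
  apply AddSubgroup.add_mem
  · apply AddSubgroup.mem_sup_left
    apply mem_Q
    · rw [ok_append, ok_cons]
      exact ⟨hok1, ⟨by simp only; omega, hc⟩, hok4⟩
    · rw [List.length_append, List.length_cons]
      omega
    · rw [wt_append, wt_cons]
      simp only
      omega
  · apply AddSubgroup.mem_sup_right
    apply mem_E
    · rw [ok_append, ok_cons, ok_cons]
      refine ⟨hok1, ⟨by simp only; omega, hc⟩, ⟨le_refl _, ?_⟩, hok4⟩
      simp only [Nat.sub_self]
      exact Subgroup.mem_top _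
    · rw [wt_append, wt_cons, wt_cons]
      simp only
      omega

theorem ok_perm {l l' : List (G × ℕ)} (h : l.Perm l') (hok : Ok l) : Ok l' :=
  fun x hx => hok x (h.mem_iff.2 hx)

theorem wt_perm {l l' : List (G × ℕ)} (h : l.Perm l') : wt l = wt l' :=
  (h.map Prod.snd).sum_eq

include hLCC in
/-- Permuting the factors. -/
theorem perm_mem {l l' : List (G × ℕ)} (h : l.Perm l') (m k : ℕ) :
    ∀ l₀ : List (G × ℕ), Ok (l₀ ++ l) → (l₀ ++ l).length ≤ m + 1 → k ≤ wt (l₀ ++ l) →
      Val ρ (l₀ ++ l) - Val ρ (l₀ ++ l') ∈ Q ρ m k ⊔ E ρ (k + 1) := by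
  induction h with
  | nil =>
    intro l₀ _ _ _
    rw [sub_self]
    exact AddSubgroup.zero_mem _
  | cons x h ih =>
    intro l₀ h1 h2 h3
    rename_i a b
    have e : ∀ c : List (G × ℕ), l₀ ++ x :: c = (l₀ ++ [x]) ++ c := by intro c; simp
    rw [e] at h1 h2 h3 ⊢
    rw [e b]
    exact ih (l₀ ++ [x]) h1 h2 h3
  | swap x y l =>
    intro l₀ h1 h2 h3
    exact swap_mem ρ hLCC l₀ l y x m k h1 h2 h3
  | trans h h' ih ih' =>
    intro l₀ h1 h2 h3
    rename_i a b c
    have h4 := ih l₀ h1 h2 h3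
    have hp : (l₀ ++ a).Perm (l₀ ++ b) := h.append_left l₀
    have h5 := ih' l₀ (ok_perm hp h1) (by rw [← hp.length_eq]; exact h2)
      (by rw [← wt_perm hp]; exact h3)
    have h6 := AddSubgroup.add_mem _ h4 h5
    rwa [sub_add_sub_cancel] at h6

/-- The weight of a long word in which all letters occur. -/
theorem wt_word {n : ℕ} (x : Fin n → G × ℕ) (hx : ∀ i, 1 ≤ (x i).2) (w : List (Fin n))
    (hw : n < w.length) (hall : ∀ i, i ∈ w) :
    wt (List.ofFn x) + 1 ≤ wt (w.map x) := by
  have h1 : wt (List.ofFn x) = ∑ i, (x i).2 := by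
    unfold wt
    rw [List.map_ofFn, List.sum_ofFn]
    rfl
  have h2 : ∀ w' : List (Fin n), wt (w'.map x) = ∑ i, w'.count i * (x i).2 := by
    intro w'
    induction w' with
    | nil => simp [wt]
    | cons a w' ih =>
      rw [List.map_cons, wt_cons, ih]
      have : ∀ i, (a :: w').count i * (x i).2 = w'.count i * (x i).2 +
          (if i = a then (x i).2 else 0) := by
        intro i
        rw [List.count_cons]
        by_cases hia : i = a
        · subst hia
          simp [add_mul]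
        · have : ¬ (a = i) := fun h => hia h.symm
          simp [hia, this]
      rw [Finset.sum_congr rfl fun i _ => this i, Finset.sum_add_distrib,
        Finset.sum_ite_eq' Finset.univ a fun i => (x i).2]
      simp [add_comm]
  have h3 : ∀ w' : List (Fin n), w'.length = ∑ i, w'.count i := by
    intro w'
    induction w' with
    | nil => simp
    | cons a w' ih =>
      have : ∀ i, (a :: w').count i = w'.count i + (if i = a then 1 else 0) := by
        intro i
        rw [List.count_cons]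
        by_cases hia : i = a
        · subst hia
          simp
        · have : ¬ (a = i) := fun h => hia h.symm
          simp [hia, this]
      rw [Finset.sum_congr rfl fun i _ => this i, Finset.sum_add_distrib,
        Finset.sum_ite_eq' Finset.univ a fun _ => 1, List.length_cons, ih]
      simp
  rw [h1, h2 w]
  have h4 : ∀ i, (x i).2 + (w.count i - 1) ≤ w.count i * (x i).2 := by
    intro i
    have hc : 1 ≤ w.count i := List.count_pos_iff.2 (hall i)
    have := hx i
    obtain ⟨c, hc'⟩ := Nat.exists_eq_add_of_le hc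
    obtain ⟨d, hd'⟩ := Nat.exists_eq_add_of_le this
    rw [hc', hd']
    have : (1 + c) * (1 + d) = 1 + d + c + c * d := by ring
    rw [this]
    have : 0 ≤ c * d := Nat.zero_le _
    omega
  have h5 : ∑ i, ((x i).2 + (w.count i - 1)) ≤ ∑ i, w.count i * (x i).2 :=
    Finset.sum_le_sum fun i _ => h4 i
  rw [Finset.sum_add_distrib] at h5
  have h6 : 1 ≤ ∑ i, (w.count i - 1) := by
    have h7 : w.length = ∑ i, (w.count i - 1) + n := by
      rw [h3 w]
      have : ∀ i, w.count i = (w.count i - 1) + 1 := by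
        intro i
        have hc : 1 ≤ w.count i := List.count_pos_iff.2 (hall i)
        omega
      rw [Finset.sum_congr rfl fun i _ => this i, Finset.sum_add_distrib]
      simp
    omega
  omega

end W

theorem hWGT (hPOL : StPOL) (hLCC : StLCC) : StWGT := by
  intro p c hp G _ A _ hpA ρ hE hc hn l hl
  obtain ⟨n₀, hn₀⟩ := hn
  have hL := hLCC G
  have hp2 : 2 ≤ p := hp.out.two_le
  -- (2)
  have step2 : ∀ (m k : ℕ) (l : List (G × ℕ)), Ok l → l.length = m + 1 → p - 1 ≤ m + 1 →
      k ≤ wt l → Val ρ l ∈ Q ρ m k ⊔ E ρ (k + 1) := by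
    intro m k l hok hlen hpm hk
    obtain ⟨l₁, hl₁⟩ : ∃ l₁, l₁ = l.take (p - 1) := ⟨_, rfl⟩
    obtain ⟨l₂, hl₂⟩ : ∃ l₂, l₂ = l.drop (p - 1) := ⟨_, rfl⟩
    have hll : l = l₁ ++ l₂ := by rw [hl₁, hl₂, List.take_append_drop]
    have hlen1 : l₁.length = p - 1 := by
      rw [hl₁, List.length_take]
      omega
    obtain ⟨x, hx⟩ : ∃ x : Fin (p - 1) → G × ℕ, List.ofFn x = l₁ := by
      refine ⟨fun i => l₁.get (i.cast hlen1.symm), ?_⟩
      apply List.ext_getElem
      · simp [hlen1]
      · intro i h1 h2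
        simp
    rw [hll, ← hx] at hok hk ⊢
    have hlen' : (List.ofFn x ++ l₂).length ≤ m + 1 := by
      rw [hx, ← hll]
      omega
    obtain ⟨hok1, hok2⟩ := (ok_append _ _).1 hok
    have hx1 : ∀ i, 1 ≤ (x i).2 := fun i => (hok1 (x i) (by simp [List.mem_ofFn])).1
    -- every permutation
    have hperm : ∀ σ : Equiv.Perm (Fin (p - 1)),
        Val ρ (List.ofFn x ++ l₂) - (List.ofFn fun i => (ρ (x (σ i)).1 - 1)).prod * Val ρ l₂ ∈
          Q ρ m k ⊔ E ρ (k + 1) := by
      intro σ
      have h1 : (List.ofFn x ++ l₂).Perm (List.ofFn (x ∘ σ) ++ l₂) :=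
        ((σ.ofFn_comp_perm x).symm).append_right l₂
      have h2 := perm_mem ρ hL h1 m k [] hok hlen' hk
      simp only [List.nil_append] at h2
      rw [val_append ρ (List.ofFn (x ∘ σ))] at h2
      have h3 : Val ρ (List.ofFn (x ∘ σ)) = (List.ofFn fun i => (ρ (x (σ i)).1 - 1)).prod := by
        unfold Val
        rw [List.map_ofFn]
        rfl
      rwa [h3] at h2
    have hsum : ∑ σ : Equiv.Perm (Fin (p - 1)), (Val ρ (List.ofFn x ++ l₂) -
        (List.ofFn fun i => (ρ (x (σ i)).1 - 1)).prod * Val ρ l₂) ∈ Q ρ m k ⊔ E ρ (k + 1) :=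
      AddSubgroup.sum_mem _ fun σ _ => hperm σ
    rw [Finset.sum_sub_distrib, ← Finset.sum_mul] at hsum
    -- POL
    have hpol := hPOL A (p - 1) (fun i => ρ (x i).1 - 1) (by
      intro S
      have e : ((((List.finRange (p - 1)).filter (· ∈ S)).map
          (fun i => 1 + (ρ (x i).1 - 1))).prod) =
          ρ ((((List.finRange (p - 1)).filter (· ∈ S)).map (fun i => (x i).1)).prod) := by
        rw [map_list_prod, List.map_map]
        congr 1
        apply List.map_congr_left
        intro i _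
        simp
      rw [e]
      exact hE _)
    have hz : (∑ σ : Equiv.Perm (Fin (p - 1)), (List.ofFn fun i => (ρ (x (σ i)).1 - 1)).prod) *
        Val ρ l₂ ∈ E ρ (k + 1) := by
      have key : ∀ z ∈ AddSubgroup.closure {z : A | ∃ w : List (Fin (p - 1)),
          p - 1 < w.length ∧ (∀ i, i ∈ w) ∧ z = (w.map fun i => ρ (x i).1 - 1).prod},
          z * Val ρ l₂ ∈ E ρ (k + 1) := by
        intro z hz
        induction hz using AddSubgroup.closure_induction with
        | mem z hz =>
          obtain ⟨w, hw1, hw2, rfl⟩ := hz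
          have e : (w.map fun i => ρ (x i).1 - 1).prod = Val ρ (w.map x) := by
            unfold Val
            rw [List.map_map]
            rfl
          rw [e, ← val_append]
          apply mem_E
          · rw [ok_append]
            refine ⟨?_, hok2⟩
            intro y hy
            obtain ⟨i, _, rfl⟩ := List.mem_map.1 hy
            exact hok1 (x i) (by simp [List.mem_ofFn])
          · rw [wt_append]
            rw [wt_append] at hk
            have := wt_word x hx1 w hw1 hw2
            omega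
        | zero => rw [zero_mul]; exact AddSubgroup.zero_mem _
        | add a b _ _ ha hb => rw [add_mul]; exact AddSubgroup.add_mem _ ha hb
        | neg a _ ha => rw [neg_mul]; exact AddSubgroup.neg_mem _ ha
      exact key _ hpol
    have hsum2 : ∑ _σ : Equiv.Perm (Fin (p - 1)), Val ρ (List.ofFn x ++ l₂) ∈
        Q ρ m k ⊔ E ρ (k + 1) := by
      have := AddSubgroup.add_mem _ hsum (AddSubgroup.mem_sup_right hz)
      rwa [sub_add_cancel] at this
    rw [Finset.sum_const, Finset.card_univ, Fintype.card_perm, Fintype.card_fin,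
      nsmul_eq_mul] at hsum2
    have hw : (((p - 1).factorial : ℕ) : A) = -1 := by
      have h1 : (((p - 1).factorial : ℕ) : ZMod p) = -1 := ZMod.wilsons_lemma p
      have h2 : (((p - 1).factorial + 1 : ℕ) : ZMod p) = 0 := by
        push_cast
        rw [h1]
        ring
      obtain ⟨q, hq⟩ := (ZMod.natCast_eq_zero_iff _ _).1 h2
      have h3 : (((p - 1).factorial + 1 : ℕ) : A) = 0 := by
        rw [hq]
        push_cast
        rw [hpA, zero_mul]
      push_cast at h3
      exact eq_neg_of_add_eq_zero_left h3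
    rw [hw, neg_one_mul] at hsum2
    have := AddSubgroup.neg_mem _ hsum2
    rwa [neg_neg] at this
  -- (3)
  have step3 : ∀ (k n : ℕ) (l : List (G × ℕ)), l.length ≤ n → Ok l → k ≤ wt l →
      Val ρ l ∈ Q ρ (p - 2) k ⊔ E ρ (k + 1) := by
    intro k n
    induction n with
    | zero =>
      intro l h1 h2 h3
      apply AddSubgroup.mem_sup_left
      exact mem_Q ρ l _ _ h2 (by omega) h3
    | succ n ih =>
      intro l h1 h2 h3
      by_cases h4 : l.length ≤ p - 2
      · apply AddSubgroup.mem_sup_left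
        exact mem_Q ρ l _ _ h2 h4 h3
      · obtain ⟨m, hm⟩ : ∃ m, l.length = m + 1 := ⟨l.length - 1, by omega⟩
        have h5 := step2 m k l h2 hm (by omega) h3
        have h6 : Q ρ m k ≤ Q ρ (p - 2) k ⊔ E ρ (k + 1) := by
          unfold Q
          rw [AddSubgroup.closure_le]
          rintro a ⟨l', g1, g2, g3, rfl⟩
          exact ih l' (by omega) g1 g3
        exact (sup_le h6 le_sup_right) h5
  have hEQ : ∀ k, E ρ k ≤ Q ρ (p - 2) k ⊔ E ρ (k + 1) := by
    intro k
    unfold E
    rw [AddSubgroup.closure_le]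
    rintro a ⟨l', g1, g2, rfl⟩
    exact step3 k l'.length l' le_rfl g1 g2
  -- a factor of large weight
  have hbig : ∀ l : List (G × ℕ), Ok l → (∃ x ∈ l, c < x.2) → Val ρ l = 0 := by
    intro l hok hx
    obtain ⟨x, hx1, hx2⟩ := hx
    have h1 : ρ x.1 = 1 := by
      apply hc
      exact (⊤ : Subgroup G).lowerCentralSeries_antitone (by omega : c ≤ x.2 - 1) (hok x hx1).2
    unfold Val
    apply List.prod_eq_zero
    rw [List.mem_map]
    exact ⟨x, hx1, by rw [h1, sub_self]⟩
  have hwt : ∀ l : List (G × ℕ), (¬ ∃ x ∈ l, c < x.2) → wt l ≤ l.length * c := by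
    intro l hx
    push Not at hx
    induction l with
    | nil => simp [wt]
    | cons a l ih =>
      rw [wt_cons, List.length_cons]
      have h1 := hx a (by simp)
      have h2 := ih (fun x hx' => hx x (by simp [hx']))
      have : (l.length + 1) * c = l.length * c + c := by ring
      omega
  -- (4)
  have step4 : ∀ k, (p - 2) * c < k → Q ρ (p - 2) k = ⊥ := by
    intro k hk
    rw [eq_bot_iff]
    unfold Q
    rw [AddSubgroup.closure_le]
    rintro a ⟨l', g1, g2, g3, rfl⟩
    show Val ρ l' ∈ (⊥ : AddSubgroup A)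
    rw [AddSubgroup.mem_bot]
    by_cases hx : ∃ x ∈ l', c < x.2
    · exact hbig l' g1 hx
    · have h1 := hwt l' hx
      have h2 : l'.length * c ≤ (p - 2) * c := Nat.mul_le_mul_right c g2
      omega
  have step4' : ∀ k, (p - 2) * c < k → E ρ k ≤ E ρ (k + 1) := by
    intro k hk
    have := hEQ k
    rwa [step4 k hk, bot_sup_eq] at this
  -- (5)
  have step5 : ∀ k, c * n₀ < k → E ρ k = ⊥ := by
    intro k hk
    rw [eq_bot_iff]
    unfold E
    rw [AddSubgroup.closure_le]
    rintro a ⟨l', g1, g3, rfl⟩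
    show Val ρ l' ∈ (⊥ : AddSubgroup A)
    rw [AddSubgroup.mem_bot]
    by_cases hx : ∃ x ∈ l', c < x.2
    · exact hbig l' g1 hx
    · have h1 := hwt l' hx
      have h2 : n₀ ≤ l'.length := by
        by_contra h3
        push Not at h3
        have h4 : l'.length * c ≤ n₀ * c := Nat.mul_le_mul_right c h3.le
        have h5 : n₀ * c = c * n₀ := Nat.mul_comm _ _
        omega
      have h6 := hn₀ (l'.map Prod.fst) (by simpa using h2)
      rw [List.map_map] at h6
      exact h6
  have step6 : ∀ (j k : ℕ), (p - 2) * c < k → E ρ k ≤ E ρ (k + j) := by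
    intro j
    induction j with
    | zero => intro k _; exact le_rfl
    | succ j ih =>
      intro k hk
      have h1 := step4' k hk
      have h2 := ih (k + 1) (by omega)
      have h3 : k + 1 + j = k + (j + 1) := by omega
      rw [h3] at h2
      exact h1.trans h2
  have hfin : E ρ l.length = ⊥ := by
    rw [eq_bot_iff]
    have h1 := step6 (c * n₀ + 1) l.length hl
    rw [step5 (l.length + (c * n₀ + 1)) (by omega)] at h1
    exact h1
  have hmem : Val ρ (l.map fun g => (g, 1)) ∈ E ρ l.length := by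
    apply mem_E
    · intro x hx
      obtain ⟨g, _, rfl⟩ := List.mem_map.1 hx
      simp only [Nat.sub_self]
      exact ⟨le_rfl, Subgroup.mem_top _⟩
    · unfold wt
      rw [List.map_map]
      have : (Prod.snd ∘ fun g : G => (g, 1)) = fun _ => 1 := rfl
      rw [this]
      simp
  rw [hfin, AddSubgroup.mem_bot] at hmem
  unfold Val at hmem
  rw [List.map_map] at hmem
  exact hmem

end Pool.Agent.Helper91.RB
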